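import Pool.Agent.R684.VG.Stm

set_option autoImplicit false

/-!
# VG-BB: the coboundaries have dimension at most one
-/

namespace Pool.Agent.R794.VG

open Pool.Agent.W649.ZL Pool.Agent.R684.PN Pool.Agent.R684.VG

section
variable {Γ S : Type} [Group Γ] [Fintype S]

theorem memT (σ : S → Γ) (u : EE Γ Unit) :
    Memℓp (fun x : Γ × S => u ((σ x.2)⁻¹ * x.1, ()) - u (x.1, ())) 2 := by
  rw [memlp_two_iff, ← (Equiv.prodComm S Γ).summable_iff]
  have hu : Summable fun x : Γ × Unit => ‖u x‖ ^ 2 := (memlp_two_iff _).1 u.2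
  have h2 : Summable fun x : Γ => ‖u (x, ())‖ ^ 2 :=
    hu.comp_injective (i := fun x : Γ => (x, ())) (fun a b h => (Prod.mk.inj h).1)
  have hs : ∀ s : S, Summable fun x : Γ => ‖u ((σ s)⁻¹ * x, ()) - u (x, ())‖ ^ 2 := by
    intro s
    have h3 : Summable fun x : Γ => ‖u ((σ s)⁻¹ * x, ())‖ ^ 2 :=
      h2.comp_injective (i := fun x : Γ => (σ s)⁻¹ * x) (mul_right_injective _)
    refine Summable.of_nonneg_of_le (fun x => by positivity) (fun x => ?_)
      ((h3.mul_left 2).add (h2.mul_left 2))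
    have h4 := norm_sub_le (u ((σ s)⁻¹ * x, ())) (u (x, ()))
    have h5 : ‖u ((σ s)⁻¹ * x, ()) - u (x, ())‖ ^ 2
        ≤ (‖u ((σ s)⁻¹ * x, ())‖ + ‖u (x, ())‖) ^ 2 := by
      gcongr
    nlinarith [sq_nonneg (‖u ((σ s)⁻¹ * x, ())‖ - ‖u (x, ())‖)]
  exact (summable_prod_of_nonneg (fun x => sq_nonneg _)).2 ⟨fun s => hs s, Summable.of_finite⟩

/-- the coboundary operator, linear version -/
noncomputable def TL (σ : S → Γ) : EE Γ Unit →ₗ[ℂ] EE Γ S where
  toFun u := ⟨fun x => u ((σ x.2)⁻¹ * x.1, ()) - u (x.1, ()), memT σ u⟩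
  map_add' u v := by
    ext x
    change (u + v) _ - (u + v) _ = (u _ - u _) + (v _ - v _)
    rw [lp.coeFn_add, Pi.add_apply, Pi.add_apply]
    ring
  map_smul' a u := by
    ext x
    change (a • u) _ - (a • u) _ = a • (u _ - u _)
    rw [lp.coeFn_smul, Pi.smul_apply, Pi.smul_apply, smul_sub]

theorem TL_apply (σ : S → Γ) (u : EE Γ Unit) (x : Γ × S) :
    TL σ u x = u ((σ x.2)⁻¹ * x.1, ()) - u (x.1, ()) := rfl

theorem ev_cont {X : Type} (x : X) : Continuous fun f : lp (fun _ : X => ℂ) 2 => f x := by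
  have h := lp.uniformContinuous_coe (E := fun _ : X => ℂ) (p := 2)
  exact (continuous_apply x).comp h.continuous

theorem TL_cont (σ : S → Γ) : Continuous (TL σ) := by
  apply LinearMap.continuous_of_seq_closed_graph
  intro u x y hu hT
  ext z
  have h1 : Filter.Tendsto (fun n => (TL σ (u n)) z) Filter.atTop (nhds (y z)) :=
    ((ev_cont z).tendsto y).comp hT
  have h2 : Filter.Tendsto (fun n => (TL σ (u n)) z) Filter.atTop
      (nhds (x ((σ z.2)⁻¹ * z.1, ()) - x (z.1, ()))) :=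
    (((ev_cont _).tendsto x).comp hu).sub (((ev_cont _).tendsto x).comp hu)
  exact tendsto_nhds_unique h1 h2

/-- the coboundary operator -/
noncomputable def TC (σ : S → Γ) : EE Γ Unit →L[ℂ] EE Γ S := ⟨TL σ, TL_cont σ⟩

theorem TC_apply (σ : S → Γ) (u : EE Γ Unit) (x : Γ × S) :
    TC σ u x = u ((σ x.2)⁻¹ * x.1, ()) - u (x.1, ()) := rfl

theorem TC_eqv (σ : S → Γ) : Eqv (TC σ) := by
  intro k f
  ext x
  rw [TC_apply, tr_apply, tr_apply, tr_apply, TC_apply]
  simp only [mul_assoc]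

end

theorem t_BB : S_BB := by
  intro Γ S _ _ σ
  have h := rank_nullity (TC σ) (TC_eqv σ) (U := ⊤) (fun _ _ _ => trivial) (by simp)
  have h1 : (⊤ : Submodule ℂ (EE Γ Unit)).map (TC σ : EE Γ Unit →ₗ[ℂ] EE Γ S) = BB σ := by
    ext f
    constructor
    · rintro ⟨u, -, rfl⟩
      exact ⟨u, fun x s => rfl⟩
    · rintro ⟨u, hu⟩
      refine ⟨u, trivial, ?_⟩
      ext ⟨x, s⟩
      exact (hu x s).symm
  rw [h1, vd_top] at h
  have h2 := vd_nonneg ((⊤ : Submodule ℂ (EE Γ Unit)) ⊓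
    LinearMap.ker (TC σ : EE Γ Unit →ₗ[ℂ] EE Γ S))
  simp only [Fintype.card_unit, Nat.cast_one] at h
  linarith

end Pool.Agent.R794.VG
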